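import Pool.Agent.Run7.h432.LV.Stm

set_option autoImplicit false

namespace Run7.h432.LV

universe u v

/-- the ideal of the elements of `R` in `k ⊕ R` -/
def idl (k : Type u) (R : Type v) [CommRing k] [NonUnitalRing R] [Module k R]
    [IsScalarTower k R R] [SMulCommClass k R R] : Ideal (Unitization k R) :=
  RingHom.ker (Unitization.fstHom k R).toRingHom

lemma mem_idl {k : Type u} {R : Type v} [CommRing k] [NonUnitalRing R] [Module k R]
    [IsScalarTower k R R] [SMulCommClass k R R] {x : Unitization k R} :
    x ∈ idl k R ↔ ∃ r : R, (r : Unitization k R) = x := by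
  constructor
  · intro h
    refine ⟨x.snd, ?_⟩
    have h1 : x.fst = 0 := h
    apply Unitization.ext
    · rw [Unitization.fst_inr, h1]
    · rw [Unitization.snd_inr]
  · rintro ⟨r, rfl⟩
    show (r : Unitization k R).fst = 0
    exact Unitization.fst_inr k r

theorem t_MAIN (hF : S_FIN.{max u v}) (hU : S_UNI.{u, v}) : S_MAIN.{u, v} := by
  intro k R _ _ _ _ _ m hm hcap hR x
  have htwo : (idl k R).IsTwoSided := by
    unfold idl
    infer_instance
  have hinv : Inv (Unitization k R) (m + 1 - 1) := by
    intro n hn0 hnm
    have h1 : n ∣ m.factorial := Nat.dvd_factorial hn0 (by omega)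
    have h2 : IsUnit ((n : ℕ) : k) := by
      obtain ⟨c, hc⟩ := h1
      rw [hc, Nat.cast_mul] at hm
      exact isUnit_of_mul_isUnit_left hm
    have h3 := h2.map (algebraMap k (Unitization k R))
    rwa [map_natCast] at h3
  have hCap : Cap (idl k R) (m + 1) := by
    intro w hw y hy
    choose r hr using fun i => mem_idl.1 (hy i)
    have h4 := hU k R (m + 1) (Nat.succ_pos m) hcap w hw r
    have h5 : (fun i => ((r i : R) : Unitization k R)) = y := funext hr
    rwa [h5] at h4
  have hP : Perfect (idl k R) := by
    intro y hy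
    obtain ⟨r, rfl⟩ := mem_idl.1 hy
    have h6 : r ∈ AddSubgroup.closure {c : R | ∃ a b : R, c = a * b - b * a} := by
      rw [hR]; exact AddSubgroup.mem_top r
    clear hy
    induction h6 using AddSubgroup.closure_induction with
    | mem c hc =>
      obtain ⟨a, b, rfl⟩ := hc
      apply AddSubgroup.subset_closure
      refine ⟨(a : Unitization k R), mem_idl.2 ⟨a, rfl⟩, (b : Unitization k R),
        mem_idl.2 ⟨b, rfl⟩, ?_⟩
      rw [Unitization.inr_sub, Unitization.inr_mul, Unitization.inr_mul]
    | zero =>
      rw [Unitization.inr_zero]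
      exact AddSubgroup.zero_mem _
    | add a b _ _ ha hb =>
      rw [Unitization.inr_add]
      exact AddSubgroup.add_mem _ ha hb
    | neg a _ ha =>
      rw [Unitization.inr_neg]
      exact AddSubgroup.neg_mem _ ha
  have h7 := hF (m + 1) (Unitization k R) (idl k R) hinv hCap hP
  have h8 : (x : Unitization k R) ∈ idl k R := mem_idl.2 ⟨x, rfl⟩
  rw [h7] at h8
  have h9 : (x : Unitization k R) = 0 := h8
  have h10 := congrArg (fun z : Unitization k R => z.snd) h9
  simpa using h10

end Run7.h432.LV
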