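import Pool.Agent.Run7.h432.LV.Stm2
import Pool.Agent.Run7.h432.LV.MAIN

set_option autoImplicit false

namespace Run7.h432.LV

universe u v

lemma perfect_idl {k : Type u} {R : Type v} [CommRing k] [NonUnitalRing R] [Module k R]
    [IsScalarTower k R R] [SMulCommClass k R R]
    (hR : AddSubgroup.closure {c : R | ∃ a b : R, c = a * b - b * a} = ⊤) :
    Perfect (idl k R) := by
  intro y hy
  obtain ⟨r, rfl⟩ := mem_idl.1 hy
  have h6 : r ∈ AddSubgroup.closure {c : R | ∃ a b : R, c = a * b - b * a} := by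
    rw [hR]; exact AddSubgroup.mem_top r
  clear hy
  induction h6 using AddSubgroup.closure_induction with
  | mem c hc =>
    obtain ⟨a, b, rfl⟩ := hc
    apply AddSubgroup.subset_closure
    refine ⟨(a : Unitization k R), mem_idl.2 ⟨a, rfl⟩, (b : Unitization k R),
      mem_idl.2 ⟨b, rfl⟩, ?_⟩
    rw [Unitization.inr_sub, Unitization.inr_mul, Unitization.inr_mul]
  | zero =>
    rw [Unitization.inr_zero]
    exact AddSubgroup.zero_mem _
  | add a b _ _ ha hb =>
    rw [Unitization.inr_add]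
    exact AddSubgroup.add_mem _ ha hb
  | neg a _ ha =>
    rw [Unitization.inr_neg]
    exact AddSubgroup.neg_mem _ ha

lemma tor_aux (hF : S_FIN.{u}) (hU : S_UNI.{0, u}) (hL : S_LOC.{u}) (hC : S_CPL.{u})
    (hP : S_PFL.{u}) (k : Type) (R : Type u) [CommRing k] [NonUnitalRing R] [Module k R]
    [IsScalarTower k R R] [SMulCommClass k R R] (m : ℕ) (hcap : CapR k R (m + 1))
    (hR : AddSubgroup.closure {c : R | ∃ a b : R, c = a * b - b * a} = ⊤) (x : R) :
    ∃ l : ℕ, (m.factorial ^ l) • x = 0 := by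
  have htwo : (idl k R).IsTwoSided := by
    unfold idl
    infer_instance
  obtain ⟨U, hRing, φ, hN, hs, hk⟩ := hL (Unitization k R) (m.factorial : ℤ)
  have hCap : Cap (idl k R) (m + 1) := by
    intro w hw y hy
    choose r hr using fun i => mem_idl.1 (hy i)
    have h4 := hU k R (m + 1) (Nat.succ_pos m) hcap w hw r
    have h5 : (fun i => ((r i : R) : Unitization k R)) = y := funext hr
    rwa [h5] at h4
  obtain ⟨J, hJ2, hJP, hJ⟩ := hP (Unitization k R) U φ (m.factorial : ℤ) hN hs (idl k R)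
    (perfect_idl hR)
  have hCJ : Cap J (m + 1) := hC (Unitization k R) U φ (m.factorial : ℤ) hN hs (idl k R) J
    (fun c hc => (hJ c).1 hc) (m + 1) hCap
  have hinv : Inv U (m + 1 - 1) := by
    intro n hn0 hnm
    obtain ⟨c, hc⟩ : n ∣ m.factorial := Nat.dvd_factorial hn0 (by omega)
    rw [hc] at hN
    have h8 : IsUnit ((n : U) * (c : U)) := by
      have h9 : (((n * c : ℕ) : ℤ) : U) = (n : U) * (c : U) := by push_cast; rfl
      rw [← h9]
      exact hN
    exact ((Nat.cast_commute n (c : U)).isUnit_mul_iff.1 h8).1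
  have h7 := hF (m + 1) U J hinv hCJ hJP
  have h8 : φ (x : Unitization k R) ∈ J := by
    rw [hJ]
    refine ⟨0, (x : Unitization k R), mem_idl.2 ⟨x, rfl⟩, ?_⟩
    rw [pow_zero, one_mul]
  rw [h7] at h8
  have h9 : φ (x : Unitization k R) = 0 := h8
  obtain ⟨l, hk'⟩ := hk _ h9
  refine ⟨l, ?_⟩
  have h10 : ((m.factorial ^ l) • (x : Unitization k R)) = 0 := by
    rw [nsmul_eq_mul]
    push_cast
    rw [← hk']
    push_cast
    rfl
  have h12 : (((m.factorial ^ l) • x : R) : Unitization k R) =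
      (m.factorial ^ l) • (x : Unitization k R) :=
    map_nsmul (Unitization.inrNonUnitalAlgHom k R) (m.factorial ^ l) x
  rw [h10] at h12
  have h14 : ((((m.factorial ^ l) • x : R) : Unitization k R)).snd = 0 := by
    rw [h12]; rfl
  rwa [Unitization.snd_inr] at h14

theorem t_TOR (hF : S_FIN.{u}) (hU : S_UNI.{0, u}) (hL : S_LOC.{u}) (hC : S_CPL.{u})
    (hP : S_PFL.{u}) : S_TOR.{u} := by
  intro R _ m hcap hR x
  exact tor_aux hF hU hL hC hP ℤ R m hcap hR x

end Run7.h432.LV
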