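import Pool.Agent.Run7.h432.LV.Stm
import Pool.Agent.Run7.h432.LV.MAIN
import Pool.Agent.Run7.h417.LV.VP
import Pool.Agent.Run7.h382.LV.VA
import Pool.Agent.Run7.h300.LV.VE
import Pool.Agent.Run7.h136.LV.VX
import Pool.Agent.Run7.h136.LV.SYM
import Pool.Agent.Run7.h67.LV.STAR
import Pool.Agent.Run7.h862.LV.TRZ
import Pool.Agent.Run7.h890.LV.PS
import Pool.Agent.Run7.h313.LV.CH
import Pool.Agent.Run7.h824.LV.NIL
import Pool.Agent.Run7.h340.LV.LIN
import Pool.Agent.Run7.h340.LV.NH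
import Pool.Agent.Run7.h633.LV.FIN
import Pool.Agent.Run7.h650.LV.UNI
import Pool.Agent.Run7.h432.LV.TOR
import Pool.Agent.Run7.h192.LV.LOC
import Pool.Agent.Run7.h67.LV.CPL
import Pool.Agent.Run7.h305.LV.PFL

set_option autoImplicit false

namespace Run7.h432.LV

universe u v

theorem star : S_STAR.{u} := Run7.h67.LV.t_STAR Run7.h300.LV.t_VE

theorem sym : S_SYM.{u} := Pool.Agent.Run7.h136.LV.t_SYM star Run7.h417.LV.t_VM

theorem trz : S_TRZ.{u} := Run7.h862.LV.t_TRZ sym Run7.h417.LV.t_VM Run7.h382.LV.t_VA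

theorem ch : S_CH.{u} := t_CH trz Run7.h890.LV.t_PS

theorem zc : S_ZC.{u} := t_ZC star ch

theorem nil : S_NIL.{u} := Run7.h824.LV.t_NIL zc Pool.Agent.Run7.h136.LV.t_VX

theorem nh : S_NH.{u} := Run7.h340.LV.t_NH Run7.h340.LV.t_LIN

theorem fin : S_FIN.{u} := Run7.h633.LV.t_FIN nil nh

theorem main : S_MAIN.{u, v} := t_MAIN fin Run7.h650.LV.t_UNI

theorem tor : S_TOR.{u} := t_TOR fin Run7.h650.LV.t_UNI Run7.h192.LV.t_LOC Run7.h67.LV.t_CPL
  Run7.h305.LV.t_PFL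

end Run7.h432.LV
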