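import Mathlib

/-!
# Project LV (MP_8daa5c_al, Lvov): no nonzero algebra with a Capelli identity has `[R, R] = R`

`U` is a ring with unit, `I` a two-sided ideal of `U` (later `U = k ⊕ R`, `I = R`) with
`I = [I, I]`. `V U ι` are the multilinear generalised polynomials in the variables `ι` with
coefficients in `U`. `Cap I n`: alternating sums in `n` variables vanish on `I`.

Plan: `STAR` (exchange), `SYM` (the trace operators of two blocks agree), `TRZ` (they vanish),
`CH` (Cayley-Hamilton: `u ^ m` kills a slot), `ZC`, `NIL`, `NH` (Nagata-Higman), `FIN`.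
Every piece is `theorem t_XXX : S_XXX` or `theorem t_XXX (h : S_A) .. : S_XXX`.
-/

set_option autoImplicit false

namespace Run7.h432.LV

universe u v

/-- The value of the word `w`, whose letters are elements of the ring `U` and variables. -/
def ev {U : Type u} [Ring U] {ι : Type} (w : List (U ⊕ ι)) (x : ι → U) : U :=
  (w.map (Sum.elim id x)).prod

/-- Each variable occurs exactly once in the word. -/
def Once {X : Type u} {ι : Type} (w : List (X ⊕ ι)) : Prop :=
  (w.filterMap Sum.getRight?).Nodup ∧ ∀ i, Sum.inr i ∈ w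

/-- The multilinear generalised polynomials with variables `ι`, as functions. -/
def V (U : Type u) [Ring U] (ι : Type) : AddSubgroup ((ι → U) → U) :=
  AddSubgroup.closure {F | ∃ w : List (U ⊕ ι), Once w ∧ F = ev w}

/-- The alternating sum of the values of a word. -/
def alt {U : Type u} [Ring U] {n : ℕ} (w : List (U ⊕ Fin n)) (x : Fin n → U) : U :=
  ∑ σ : Equiv.Perm (Fin n), (Equiv.Perm.sign σ : ℤ) • ev w (x ∘ σ)

/-- The ideal `I` of `U` satisfies the Capelli identities of order `n`. -/
def Cap {U : Type u} [Ring U] (I : Ideal U) (n : ℕ) : Prop :=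
  ∀ w : List (U ⊕ Fin n), Once w → ∀ x : Fin n → U, (∀ i, x i ∈ I) → alt w x = 0

/-- `F` changes sign when two variables of the block `a` are exchanged. -/
def AltB {U : Type u} [Ring U] {ι : Type} [DecidableEq ι] {m : ℕ} (F : (ι → U) → U)
    (a : Fin m → ι) : Prop :=
  ∀ i j, i ≠ j → ∀ x : ι → U, F (x ∘ Equiv.swap (a i) (a j)) = - F x

/-- `1, 2, .., m` are invertible in `U`. -/
def Inv (U : Type u) [Ring U] (m : ℕ) : Prop := ∀ n : ℕ, 0 < n → n ≤ m → IsUnit (n : U)

/-- `I = [I, I]` (sums of commutators). -/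
def Perfect {U : Type u} [Ring U] (I : Ideal U) : Prop :=
  ∀ x ∈ I, x ∈ AddSubgroup.closure {c : U | ∃ a ∈ I, ∃ b ∈ I, c = a * b - b * a}

/-- the trace operator of the block `a`: multiply each variable of the block by `s` in turn -/
def del {U : Type u} [Ring U] {ι : Type} [DecidableEq ι] {m : ℕ} (a : Fin m → ι) (s : U)
    (F : (ι → U) → U) : (ι → U) → U :=
  fun x => ∑ i, F (Function.update x (a i) (s * x (a i)))

/-- VP. Closure under permutations of the variables: `ev w (x ∘ σ) = ev (w.map (Sum.map id σ)) x`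
and `AddSubgroup.closure_induction`. -/
def S_VP : Prop := ∀ (U : Type u) [Ring U] (ι : Type) (F : (ι → U) → U), F ∈ V U ι →
  ∀ σ : Equiv.Perm ι, (fun x => F (x ∘ σ)) ∈ V U ι

/-- VM. Closure under multiplication of the variables from the left:
`ev w (fun i => g i * x i) = ev w' x` where `w'` is `w.flatMap` with `inl c ↦ [inl c]`,
`inr i ↦ [inl (g i), inr i]`. -/
def S_VM : Prop := ∀ (U : Type u) [Ring U] (ι : Type) (F : (ι → U) → U), F ∈ V U ι →
  ∀ g : ι → U, (fun x => F (fun i => g i * x i)) ∈ V U ι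

/-- VA. Additivity in each variable (induction over the word; a variable occurs exactly once). -/
def S_VA : Prop := ∀ (U : Type u) [Ring U] (ι : Type) [DecidableEq ι] (F : (ι → U) → U),
  F ∈ V U ι → ∀ (x : ι → U) (i : ι) (p q : U),
    F (Function.update x i (p + q)) = F (Function.update x i p) + F (Function.update x i q)

/-- VE. The values of the variables outside the range of the injection `j` may be regarded as
coefficients: `ev w (Function.extend j y x) = ev w' y` where `w'` replaces the letter `inr i` by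
`inr l` if `i = j l` and by `inl (x i)` if `i` is not in the range. -/
def S_VE : Prop := ∀ (U : Type u) [Ring U] (ι κ : Type) (F : (ι → U) → U), F ∈ V U ι →
  ∀ j : κ → ι, Function.Injective j → ∀ x : ι → U,
    (fun y : κ → U => F (Function.extend j y x)) ∈ V U κ

/-- VX. A product: for words `w` in `Fin m` and `w'` in `Fin m` and `c : U` the function
`x ↦ alt w (x on the first block) * c * alt w' (x on the second block) * x (last)` is multilinear
and alternates in both blocks. The index type is `(Fin m ⊕ Fin m) ⊕ Unit`. Proof: `alt w` is a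
sum over `σ` of `± ev (w.map (Sum.map id σ))`; the product of the words (concatenation, with the
letter `inl c` between them, variables relabelled by `Sum.inl ∘ Sum.inl`, `Sum.inl ∘ Sum.inr`,
last letter `inr (inr ())`) is a word in which every variable occurs once. Alternation: replace
`σ` by `swap * σ` in the sum (`Equiv.sum_comp`, `sign_swap`). -/
def S_VX : Prop := ∀ (U : Type u) [Ring U] (m : ℕ) (w w' : List (U ⊕ Fin m)), Once w → Once w' →
  ∀ c : U, (fun x : (Fin m ⊕ Fin m) ⊕ Unit → U =>
      alt w (fun i => x (Sum.inl (Sum.inl i))) * c * alt w' (fun i => x (Sum.inl (Sum.inr i))) *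
        x (Sum.inr ())) ∈ V U ((Fin m ⊕ Fin m) ⊕ Unit) ∧
    AltB (fun x : (Fin m ⊕ Fin m) ⊕ Unit → U =>
      alt w (fun i => x (Sum.inl (Sum.inl i))) * c * alt w' (fun i => x (Sum.inl (Sum.inr i))) *
        x (Sum.inr ())) (fun i : Fin m => Sum.inl (Sum.inl i)) ∧
    AltB (fun x : (Fin m ⊕ Fin m) ⊕ Unit → U =>
      alt w (fun i => x (Sum.inl (Sum.inl i))) * c * alt w' (fun i => x (Sum.inl (Sum.inr i))) *
        x (Sum.inr ())) (fun i : Fin m => Sum.inl (Sum.inr i))

/-- STAR (from VE). The exchange relation. Let `j = Fin.cons z a : Fin (m + 1) → ι` (injective) and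
`G y = F (Function.extend j y x)`, which is in `V U (Fin (m + 1))` by VE. By additivity (closure
induction) `Cap I (m + 1)` gives `∑ σ, sign σ • G (y ∘ σ) = 0` for all `y` with values in `I`;
take `y = x ∘ j`. Decompose `σ = swap 0 p * (1 ⊕ e)` (`Equiv.Perm.decomposeFin`, `p : Fin (m+1)`,
`e : Perm (Fin m)`; signs: `Equiv.Perm.decomposeFin.symm_sign`). As `F` alternates in the block
(`Equiv.Perm.swap_induction_on` for `e`), the term is `G y` for `p = 0` and `- G (y ∘ swap 0 p)`
for `p ≠ 0`, each `m!` times: `m! • (F x - ∑ i, F (x ∘ swap (a i) z)) = 0`; divide by `m!`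
(`Inv U m`). -/
def S_STAR : Prop := ∀ (U : Type u) [Ring U] (I : Ideal U) [I.IsTwoSided] (m : ℕ), Inv U m →
  Cap I (m + 1) → ∀ (ι : Type) [DecidableEq ι] (F : (ι → U) → U), F ∈ V U ι →
  ∀ a : Fin m → ι, Function.Injective a → AltB F a → ∀ z : ι, z ∉ Set.range a →
  ∀ x : ι → U, (∀ i, x (a i) ∈ I) → x z ∈ I →
    F x = ∑ i, F (x ∘ Equiv.swap (a i) z)

/-- SYM (from STAR, VM). Two blocks have the same trace operator. Write `f(.. i:p .. j:q ..)` for the
value of `F` with `p` in the place `a i` and `q` in the place `b j` (other variables as in `x`), and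
`x_i = x (a i)`, `y_j = x (b j)`. Fix `j`. `φ = del a s F` alternates in the block `a` and is in
`V U ι` (VM, sums), so by STAR with `z = b j`:
`φ(x) = ∑_i φ(x_i ↔ y_j) = ∑_i f(i : s y_j, j : x_i) + ∑_k ∑_{i ≠ k} f(i : y_j, k : s x_k, j : x_i)`.
The first sum is `f(j : s y_j)` (STAR for `F` at the point with `y_j` replaced by `s y_j`). For fixed
`k`, STAR for `F` at the point with `x_k` replaced by `s x_k` gives
`f(k : s x_k) = ∑_{i ≠ k} f(i : y_j, k : s x_k, j : x_i) + f(k : y_j, j : s x_k)`. Hence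
`φ(x) = f(j : s y_j) + φ(x) - ∑_k f(k : y_j, j : s x_k)`, i.e.
(**) `f(j : s y_j) = ∑_k f(k : y_j, j : s x_k)` for every `j`. Sum over `j`:
`del b s F x = ∑_k ∑_j f(k : y_j, j : s x_k)`, and `∑_j f(k : y_j, j : s x_k) = f(k : s x_k)` is
STAR for the block `b` and `z = a k` at the point with `x_k` replaced by `s x_k`. So
`del b s F x = ∑_k f(k : s x_k) = del a s F x`. -/
def S_SYM : Prop := ∀ (U : Type u) [Ring U] (I : Ideal U) [I.IsTwoSided] (m : ℕ), Inv U m →
  Cap I (m + 1) → ∀ (ι : Type) [DecidableEq ι] (F : (ι → U) → U), F ∈ V U ι →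
  ∀ a b : Fin m → ι, Function.Injective a → Function.Injective b → (∀ i j, a i ≠ b j) →
  AltB F a → AltB F b → ∀ (s : U) (x : ι → U), (∀ i, x (a i) ∈ I) → (∀ i, x (b i) ∈ I) →
    del a s F x = del b s F x

/-- TRZ (from SYM, VM, VA). The traces of the elements of `I = [I, I]` vanish. For `p, q : U`:
`del a p (del a q F)` and `del a q (del a p F)` have the same terms with two different places
(`i ≠ k`), and the terms with one place are `F(i : q p x_i)` and `F(i : p q x_i)`; so their
difference is `del a (q p - p q) F` (additivity VA). On the other hand at points with values in `I`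
on the blocks: `del a p (del a q F) = del a p (del b q F)` (SYM for `F`) `= del b q (del a p F)`
(different blocks) `= del a q (del a p F)` (SYM for `del a p F`, which is in `V U ι` by VM and
alternates in both blocks). So `del a (q p - p q) F x = 0`, and by additivity of `s ↦ del a s F x`
(VA) `del a s F x = 0` for all `s ∈ I` by `Perfect I`. -/
def S_TRZ : Prop := ∀ (U : Type u) [Ring U] (I : Ideal U) [I.IsTwoSided] (m : ℕ), Inv U m →
  Cap I (m + 1) → Perfect I → ∀ (ι : Type) [DecidableEq ι] (F : (ι → U) → U), F ∈ V U ι →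
  ∀ a b : Fin m → ι, Function.Injective a → Function.Injective b → (∀ i j, a i ≠ b j) →
  AltB F a → AltB F b → ∀ s ∈ I, ∀ x : ι → U, (∀ i, x (a i) ∈ I) → (∀ i, x (b i) ∈ I) →
    del a s F x = 0

/-- PS (commutative algebra: power sums). `L : MvPolynomial (Fin m) ℤ →+ A` with
`L (monomial k c) = c • g k` kills all `q * psum j`, `j ≥ 1`. By Newton
(`MvPolynomial.mul_esymm_eq_sum`) and induction on `n`, `n • L (q * esymm n) = 0`, so
`L (q * esymm n) = 0` for `1 ≤ n ≤ m`. As `∏ i, (X i₀ - X i) = 0`,
`X i₀ ^ m = - ∑_{n ≥ 1} (-1) ^ n esymm n * X i₀ ^ (m - n)` (Vieta: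
`MvPolynomial.prod_C_add_X_eq_sum_esymm` or `Multiset.prod_X_sub_X_eq_sum_esymm`). So
`g (single i₀ m) = L (X i₀ ^ m) = 0`. -/
def S_PS : Prop := ∀ (A : Type u) [AddCommGroup A] (m : ℕ),
  (∀ n : ℕ, 0 < n → n ≤ m → ∀ c : A, n • c = 0 → c = 0) → ∀ g : (Fin m →₀ ℕ) → A,
  (∀ (k : Fin m →₀ ℕ) (j : ℕ), 0 < j → ∑ i, g (k + Finsupp.single i j) = 0) →
    ∀ i, g (Finsupp.single i m) = 0

/-- CH (from TRZ, PS). Cayley-Hamilton. Apply PS with
`g k = F (the point x with x (a i) replaced by u ^ (k i) * x (a i) for all i)`; the hypothesis of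
PS is TRZ with `s = u ^ j ∈ I` at that point (its values on the block are still in `I`).
`n • c = 0 → c = 0` by `Inv U m`. -/
def S_CH : Prop := ∀ (U : Type u) [Ring U] (I : Ideal U) [I.IsTwoSided] (m : ℕ), Inv U m →
  Cap I (m + 1) → Perfect I → ∀ (ι : Type) [DecidableEq ι] (F : (ι → U) → U), F ∈ V U ι →
  ∀ a b : Fin m → ι, Function.Injective a → Function.Injective b → (∀ i j, a i ≠ b j) →
  AltB F a → AltB F b → ∀ s ∈ I, ∀ x : ι → U, (∀ i, x (a i) ∈ I) → (∀ i, x (b i) ∈ I) →
    ∀ i, F (Function.update x (a i) (s ^ m * x (a i))) = 0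

/-- ZC (from STAR, CH). `F(z : u ^ m z) = ∑ i, F(i : u ^ m z, z : x_i)` by STAR (at the point with
`x z` replaced by `u ^ m * x z`), and every term is zero by CH (at the point `x ∘ swap (a i) z`). -/
def S_ZC : Prop := ∀ (U : Type u) [Ring U] (I : Ideal U) [I.IsTwoSided] (m : ℕ), Inv U m →
  Cap I (m + 1) → Perfect I → ∀ (ι : Type) [DecidableEq ι] (F : (ι → U) → U), F ∈ V U ι →
  ∀ a b : Fin m → ι, Function.Injective a → Function.Injective b → (∀ i j, a i ≠ b j) →
  AltB F a → AltB F b → ∀ z : ι, z ∉ Set.range a → z ∉ Set.range b → ∀ s ∈ I, ∀ x : ι → U,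
    (∀ i, x (a i) ∈ I) → (∀ i, x (b i) ∈ I) → x z ∈ I →
      F (Function.update x z (s ^ m * x z)) = 0

/-- NIL (from ZC, VX): ZC for the function of VX (index type `(Fin m ⊕ Fin m) ⊕ Unit`). -/
def S_NIL : Prop := ∀ (U : Type u) [Ring U] (I : Ideal U) [I.IsTwoSided] (m : ℕ), Inv U m →
  Cap I (m + 1) → Perfect I → ∀ w w' : List (U ⊕ Fin m), Once w → Once w' →
  ∀ x y : Fin m → U, (∀ i, x i ∈ I) → (∀ i, y i ∈ I) → ∀ c : U, ∀ s ∈ I, ∀ z ∈ I,
    alt w x * c * alt w' y * (s ^ m * z) = 0

/-- LIN. Linearisation. Let `A` be a two-sided ideal with `s ^ n ∈ A` for all `s ∈ I`, `n ≤ m`,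
`Inv U m`, `1 ≤ n`. Then `∑_{i < n} x ^ i * y * x ^ (n - 1 - i) ∈ A` for `x, y ∈ I`. Proof: the
polynomial `P = (C y + C x * X) ^ n ∈ U[X]` (`X` central) has degree `≤ n` and for `t : ℕ` the value
`(y + t x) ^ n ∈ A`. A polynomial of degree `≤ n` with values in `A` at all `t : ℕ` has all
coefficients in `A` (induction on `n` with the difference `P(X+1) - P(X)`, whose leading
coefficient is `n` times that of `P`; `n` is invertible). The coefficient of `X ^ (n - 1)` is the
sum. (Alternatively: Vandermonde; or work with functions `ℕ → U` of the form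
`t ↦ ∑ k ≤ n, t ^ k • c k`, the words with `k` letters `x` defined recursively.) -/
def S_LIN : Prop := ∀ (U : Type u) [Ring U] (I A : Ideal U) [I.IsTwoSided] [A.IsTwoSided] (n : ℕ),
  Inv U n → 0 < n → (∀ s ∈ I, s ^ n ∈ A) → ∀ x ∈ I, ∀ y ∈ I,
    ∑ i ∈ Finset.range n, x ^ i * y * x ^ (n - 1 - i) ∈ A

/-- NH (from LIN). Nagata-Higman for an idempotent ideal. Induction on `m` for all `A`. `m = 0`:
`1 = s ^ 0 ∈ A` for `s = 0`. Step from `m` to `m + 1`, `n = m + 1`: consider for `x, y, z ∈ I` the
sum `∑_{i, j < n} x ^ i z y ^ j x ^ (m - i) y ^ (m - j)`. For fixed `j` it is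
`(∑_i x ^ i (z y ^ j) x ^ (m - i)) y ^ (m - j) ∈ A` by LIN. For fixed `i < m` it is
`x ^ i z (∑_j y ^ j x ^ (m - i) y ^ (m - j)) ∈ A` by LIN, and for `i = m` it is `n x ^ m z y ^ m`.
So `x ^ m z y ^ m ∈ A` (`n` is invertible). Let `A'` be the two-sided ideal generated by `A` and
the `x ^ m`, `x ∈ I` (sums of `a x ^ m b`, `a b : U`). By induction `I ≤ A'`. The product
`p q r` of `p, q, r ∈ I` is in `A`: expand `p` and `r` as elements of `A'`. By `hI`, twice,
`x ∈ I` is a sum of products `p q r`, so `I ≤ A`. -/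
def S_NH : Prop := ∀ (U : Type u) [Ring U] (I : Ideal U) [I.IsTwoSided],
  (∀ x ∈ I, x ∈ AddSubgroup.closure {c : U | ∃ a ∈ I, ∃ b ∈ I, c = a * b}) → ∀ m : ℕ, Inv U m →
  ∀ (A : Ideal U) [A.IsTwoSided], (∀ s ∈ I, s ^ m ∈ A) → I ≤ A

/-- FIN (from NIL, NH). Induction on `n` for all `U, I`. `n = 0`: the word `[]` gives `1 = 0`.
Step: `Cap I (m + 1)`, `Inv U m`. Let `D` be the set of the sums of values `alt w x`, `w` with
`Once w`, `x i ∈ I`: a two-sided ideal (`a * alt w x = alt (inl a :: w) x`,
`alt w x * a = alt (w ++ [inl a]) x`). NIL: `d c d' s ^ m z = 0` for `d, d' ∈ D`, `s, z ∈ I`.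
`A = {c | ∀ d d' ∈ D, ∀ z ∈ I, d * d' * c * z = 0}` is a two-sided ideal with `s ^ m ∈ A` for
`s ∈ I`, so `I ≤ A` by NH (`I = I ^ 2` because `I = [I, I]`): `d d' p z = 0` for `p, z ∈ I`. In
`U ⧸ D` (`Ideal.Quotient.ring`, `1..m` are invertible) the ideal `I.map (Ideal.Quotient.mk D)` (it
is the image of `I`) satisfies `Cap _ m` (lift the letters of the word and the values) and is
perfect. By induction it is zero, so `I ≤ D`. Hence `p q r s = 0` for all `p, q, r, s ∈ I`, and
`I = I ^ 4 = 0`. -/
def S_FIN : Prop := ∀ (n : ℕ) (U : Type u) [Ring U] (I : Ideal U) [I.IsTwoSided],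
  Inv U (n - 1) → Cap I n → Perfect I → I = ⊥

/-- The non-unital algebra `R` satisfies the Capelli identities of order `n`: for each word in
letters from `R` and `n` variables in which every variable occurs once, the alternating sum of its
values vanishes on `R` (products are computed in `k ⊕ R`). -/
def CapR (k : Type u) (R : Type v) [CommRing k] [NonUnitalRing R] [Module k R]
    [IsScalarTower k R R] [SMulCommClass k R R] (n : ℕ) : Prop :=
  ∀ w : List (R ⊕ Fin n), Once w → ∀ x : Fin n → R,
    ∑ σ : Equiv.Perm (Fin n), (Equiv.Perm.sign σ : ℤ) •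
      (w.map (Sum.elim (fun r : R => (r : Unitization k R))
        (fun i : Fin n => ((x (σ i) : R) : Unitization k R)))).prod = 0

/-- UNI. `Cap` in `U = Unitization k R` for the ideal `I` of the elements of `R`
(`Unitization.inr`). A letter `c + r` of a word (`c ∈ k`, `r ∈ R`) is replaced by the letter `r`
and by no letter (with the factor `c`): by induction over the word the function `ev w` is a
`k`-linear combination of functions `ev w'` where `w'` has letters in `R` and the same list
`w'.filterMap Sum.getRight?` of variables. -/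
def S_UNI : Prop := ∀ (k : Type u) (R : Type v) [CommRing k] [NonUnitalRing R] [Module k R]
  [IsScalarTower k R R] [SMulCommClass k R R] (n : ℕ), 0 < n → CapR k R n →
  ∀ (w : List (Unitization k R ⊕ Fin n)), Once w → ∀ x : Fin n → R,
    alt w (fun i => ((x i : R) : Unitization k R)) = 0

/-- MAIN (from FIN, UNI). `U = Unitization k R`, `I` = the ideal of the elements of `R` (kernel of
`Unitization.fstHom`). -/
def S_MAIN : Prop := ∀ (k : Type u) (R : Type v) [CommRing k] [NonUnitalRing R] [Module k R]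
  [IsScalarTower k R R] [SMulCommClass k R R] (m : ℕ), IsUnit ((m.factorial : ℕ) : k) →
  CapR k R (m + 1) → AddSubgroup.closure {c : R | ∃ a b : R, c = a * b - b * a} = ⊤ →
    ∀ x : R, x = 0

end Run7.h432.LV
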