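import Pool.Agent.Run7.h432.LV.Stm

/-!
# Project LV, second interface: arbitrary rings (localisation at `m!`)

`TOR`: in any ring `R` with the Capelli identities of order `m + 1` and `[R, R] = R` every element
is killed by a power of `m!`.
-/

set_option autoImplicit false

namespace Run7.h432.LV

universe u v

/-- LOC. Localisation of a ring at a central integer: `U = LocalizedModule (Submonoid.powers N) U₀`
for the `ℤ`-algebra `U₀` (Mathlib has the ring structure: `LocalizedModule.mk_mul_mk`), `φ u = mk u 1`.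
(Or `U₀[X] / (N X - 1)`.) -/
def S_LOC : Prop := ∀ (U₀ : Type u) [Ring U₀] (N : ℤ), ∃ (U : Type u) (_ : Ring U) (φ : U₀ →+* U),
  IsUnit ((N : ℤ) : U) ∧ (∀ c : U, ∃ (k : ℕ) (c₀ : U₀), (N : U) ^ k * c = φ c₀) ∧
    ∀ c₀ : U₀, φ c₀ = 0 → ∃ k : ℕ, (N : U₀) ^ k * c₀ = 0

/-- CPL. The Capelli identities pass to the localisation. `J` is any ideal of `U` whose elements `c`
satisfy `N ^ k * c ∈ φ(I)` for some `k`. For a word `w` over `U` and values `x i ∈ J` there are `K`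
and a word `w₀` over `U₀` with the same variables, and `x₀ i ∈ I`, such that
`N ^ K * ev w (x ∘ σ) = φ (ev w₀ (x₀ ∘ σ))` for all permutations `σ`. Proof: first choose `k` with
`N ^ k * x i = φ (x₀ i)` for all `i` (common `k`). Then by induction over the word: for every list
`w` there are `K`, `w₀` with `w₀.filterMap getRight? = w.filterMap getRight?` and
`N ^ K * ev w y = φ (ev w₀ y₀)` whenever `N ^ k * y i = φ (y₀ i)` for all `i`
(letter `inl c`: `N ^ l * c = φ c₀`; letter `inr i`: factor `N ^ k`; `N` is central). Note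
`alt w x = ∑ ..` and `N` is a unit. (`Once w₀` follows, as `inr i ∈ w` iff
`i ∈ w.filterMap Sum.getRight?`.) -/
def S_CPL : Prop := ∀ (U₀ U : Type u) [Ring U₀] [Ring U] (φ : U₀ →+* U) (N : ℤ),
  IsUnit ((N : ℤ) : U) → (∀ c : U, ∃ (k : ℕ) (c₀ : U₀), (N : U) ^ k * c = φ c₀) →
  ∀ (I : Ideal U₀) [I.IsTwoSided] (J : Ideal U),
    (∀ c ∈ J, ∃ k : ℕ, ∃ c₀ ∈ I, (N : U) ^ k * c = φ c₀) → ∀ n : ℕ, Cap I n → Cap J n

/-- PFL. `J = {c | ∃ k, ∃ c₀ ∈ I, N ^ k * c = φ c₀}` is a two-sided ideal of `U`, contains `φ(I)`,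
and is perfect if `I` is perfect (`N ^ k * c = φ c₀`, `c₀` a sum of commutators `[a, b]` of elements
of `I`; `c` is the sum of the `[N ^ (-k) φ a, φ b]`, with the inverse of the unit `N`, which is
central). -/
def S_PFL : Prop := ∀ (U₀ U : Type u) [Ring U₀] [Ring U] (φ : U₀ →+* U) (N : ℤ),
  IsUnit ((N : ℤ) : U) → (∀ c : U, ∃ (k : ℕ) (c₀ : U₀), (N : U) ^ k * c = φ c₀) →
  ∀ (I : Ideal U₀) [I.IsTwoSided], Perfect I → ∃ J : Ideal U, J.IsTwoSided ∧ Perfect J ∧
    (∀ c, c ∈ J ↔ ∃ k : ℕ, ∃ c₀ ∈ I, (N : U) ^ k * c = φ c₀)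

/-- TOR (from FIN, UNI, LOC, CPL, PFL). -/
def S_TOR : Prop := ∀ (R : Type u) [NonUnitalRing R] (m : ℕ), CapR ℤ R (m + 1) →
  AddSubgroup.closure {c : R | ∃ a b : R, c = a * b - b * a} = ⊤ →
    ∀ x : R, ∃ k : ℕ, (m.factorial ^ k) • x = 0

end Run7.h432.LV
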