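import Pool.Agent.Run7.h432.LV.Stm

/-!
# Project LV, third interface: every characteristic (no division)

Goal: a nonzero ring `R = [R, R]` with the Capelli identities of order `m + 1` has an ideal
`A ≠ R` with `s ^ m ∈ A` for all `s ∈ R` (so Lvov's question for rings with a Capelli identity
is equivalent to the question for nil rings of bounded index).
-/

set_option autoImplicit false

namespace Run7.h432.LV

universe u v

/-- COS. Sum over the cosets of a subgroup, e.g. with `Subgroup.groupEquivQuotientProdSubgroup` for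
the range of `φ`: every `g` is `q.out * φ h`. -/
def S_COS : Prop := ∀ (A : Type u) [AddCommGroup A] (G H : Type) [Group G] [Group H] [Fintype G]
  [Fintype H] (φ : H →* G), Function.Injective φ → ∀ f : G → A,
  (∀ g, ∑ h, f (g * φ h) = 0) → ∑ g, f g = 0

/-- ALF (from VE). The alternating sum over `n` variables of a multilinear function vanishes:
`y ↦ F (Function.extend j y x)` is in `V U (Fin n)` by VE; closure induction and `Cap I n`;
`x ∘ (ρ extended by j) = Function.extend j ((x ∘ j) ∘ ρ) x`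
(`Equiv.Perm.viaEmbedding`, `viaEmbedding_apply`, `viaEmbedding_apply_of_notMem`). -/
def S_ALF : Prop := ∀ (U : Type u) [Ring U] (I : Ideal U) (n : ℕ), Cap I n →
  ∀ (ι : Type) (F : (ι → U) → U), F ∈ V U ι → ∀ (j : Fin n ↪ ι) (x : ι → U), (∀ i, x (j i) ∈ I) →
    ∑ ρ : Equiv.Perm (Fin n), (Equiv.Perm.sign ρ : ℤ) • F (x ∘ Equiv.Perm.viaEmbedding ρ j) = 0

/-- EX (from ALF, COS). Exchange of two blocks. `N = Fin m ⊕ Fin m`, `v = Sum.elim x y`,
`W = w.map (Sum.map id inl) ++ [inl c] ++ w'.map (Sum.map id inr)` (a word over `N`, `Once W`),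
`f σ = sign σ • ev W (v ∘ σ)` for `σ : Perm N`. The left side is the sum of `f σ` over the `σ` which
preserve the two blocks (`Equiv.Perm.sumCongr σ₁ σ₂`, `sign_sumCongr`; `v ∘ sumCongr σ₁ σ₂ =
Sum.elim (x ∘ σ₁) (y ∘ σ₂)`), i.e. with `σ (inr l) ∉ range inl` for all `l`, i.e. by
`Finset.prod_one_sub` or inclusion-exclusion
`∑_{T ⊆ Fin m} (-1) ^ |T| ∑_{σ, ∀ l ∈ T, σ (inr l) ∈ range inl} f σ`.
For `T ≠ univ` the inner sum is zero: its set of `σ` is invariant under `σ ↦ σ * ρ` for the
permutations `ρ` of the `≥ m + 1` slots `inl i`, `inr l` (`l ∉ T`); choose an embedding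
`j : Fin (m + 1) ↪ N` into these slots (`inl i` and one `inr l₀`, `l₀ ∉ T`) and apply COS to
`viaEmbeddingHom j` and ALF with `x := v ∘ σ` (all values of `v` are in `I`).
For `T = univ` the `σ` map the second block onto the first one, `σ = (Equiv.sumComm _ _) * sumCongr
σ₁ σ₂`; `sign (sumComm) = (-1) ^ m` (a product of `m` transpositions `inl i ↔ inr i`; or: apply the
sum formula also with `x` and `y` exchanged), `v ∘ sumComm = Sum.elim y x`. Together
`(-1) ^ m * (-1) ^ m = 1` and the sum is `alt w y * c * alt w' x`. -/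
def S_EX : Prop := ∀ (U : Type u) [Ring U] (I : Ideal U) [I.IsTwoSided] (m : ℕ), Cap I (m + 1) →
  ∀ w w' : List (U ⊕ Fin m), Once w → Once w' → ∀ (c : U) (x y : Fin m → U),
  (∀ i, x i ∈ I) → (∀ i, y i ∈ I) → alt w x * c * alt w' y = alt w y * c * alt w' x

/-- COM (from EX). `alt w (g x) = alt w_g x` for the word `w_g` in which `inr i` is replaced by
`inl g, inr i` (`w.flatMap`, `Once` is preserved). SYM: `alt w (g x) c alt w' y =
alt w x c alt w' (g y)`: by EX for `w_g, w'` the left side is `alt w (g y) c alt w' x`, by EX for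
`w, w'` at `(g y, x)` it is the right side. Then `alt w (g (h x)) c alt w' y = alt w (h x) c alt w'
(g y) = alt w x c alt w' (h (g y))` by SYM twice, and SYM for the element `h * g` gives
`alt w ((h g) x) c alt w' y = alt w x c alt w' ((h g) y)`. -/
def S_COM : Prop := ∀ (U : Type u) [Ring U] (I : Ideal U) [I.IsTwoSided] (m : ℕ), Cap I (m + 1) →
  ∀ w w' : List (U ⊕ Fin m), Once w → Once w' → ∀ (c g h : U) (x y : Fin m → U),
  (∀ i, x i ∈ I) → (∀ i, y i ∈ I) →
    alt w (fun i => g * h * x i) * c * alt w' y = alt w (fun i => h * g * x i) * c * alt w' y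

/-- the polynomials with coefficients in `I` -/
def polyIdeal {U : Type u} [Ring U] (I : Ideal U) : Ideal (Polynomial U) where
  carrier := {p | ∀ n, p.coeff n ∈ I}
  add_mem' := fun {a b} ha hb n => by
    rw [Polynomial.coeff_add]; exact I.add_mem (ha n) (hb n)
  zero_mem' := fun n => by rw [Polynomial.coeff_zero]; exact I.zero_mem
  smul_mem' := fun c p hp n => by
    rw [smul_eq_mul, Polynomial.coeff_mul]
    exact I.sum_mem fun q _ => I.mul_mem_left _ (hp _)

/-- POL. The polynomial ring (`X` is central). The Capelli identities are multilinear: letters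
`∑ C (c_k) X ^ k`, values `∑ C (x_k) X ^ k`, `x_k ∈ I`. One way: for a word `w` over `U[X]` and
values `x` in `polyIdeal I` the function `ev w` is additive in each letter and in each variable
(by induction over the word), so one may assume that all letters and values are monomials
`C c * X ^ k` (`Polynomial.sum_monomial`, `Submodule`/`AddSubgroup` induction), and then
`ev w (x ∘ σ) = C (ev w₀ (x₀ ∘ σ)) * X ^ K` with `K` independent of `σ`. -/
def S_POL : Prop := ∀ (U : Type u) [Ring U] (I : Ideal U) [I.IsTwoSided] (n : ℕ), Cap I n →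
  Cap (polyIdeal I) n

/-- DK (from COM, POL). Let `P = U[X]`, `J = polyIdeal I` (two-sided), `N = 2 m + 1`. Call `g ∈ P`
good if `alt w (g x) c alt w' y - alt w x c alt w' y` has zero coefficients below `N`, for all
`w w' c` and all `x, y` with values in `J`. Good elements are closed under products (`h x ∈ J`) and
under congruence modulo `X ^ N`. If `g g' ≡ 1`, `h h' ≡ 1 (mod X ^ N)` then `g h g' h'` is good:
by COM (for `P`, `J`; POL) with the values `g' h' x` it may be replaced by `h g g' h' ≡ 1`. For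
`a ∈ J` put `g = 1 + X a`, `g' = ∑_{i < N} (-X a) ^ i`. For `a, b ∈ J`, `k ≥ 1` the element
`(1 + X a)(1 + X ^ k b)(1 + X a)'(1 + X ^ k b)'` is `≡ 1 + X ^ (k + 1) (a b - b a) + X ^ (k + 2) r`
with `r ∈ J` modulo `X ^ N`. Claim: `1 + X ^ k b` is good for all `b ∈ J` and `k ≥ 2`: for `k ≥ N`
clear; downward induction: `b = C b₀ + X b₁`, `b₀ ∈ I` is a sum of commutators of elements of `I`
(`Perfect I`), so `1 + X ^ k b ≡ (product of the group commutators) * (1 + X ^ (k + 1) b')`,
`b' ∈ J`. So `1 + X ^ 2 C s` is good, `s ∈ I`. For `x, y` with values in `I` (constants) the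
coefficient of `X ^ (2 k)`, `1 ≤ k ≤ m`, in `alt w ((1 + X ^ 2 C s) x) c alt w' y` is the sum in the
statement (multilinearity, `Finset.prod_add` style; words and constants mapped by `C`), so it is
zero. -/
def S_DK : Prop := ∀ (U : Type u) [Ring U] (I : Ideal U) [I.IsTwoSided] (m : ℕ), Cap I (m + 1) →
  Perfect I → ∀ w w' : List (U ⊕ Fin m), Once w → Once w' → ∀ (c : U) (x y : Fin m → U),
  (∀ i, x i ∈ I) → (∀ i, y i ∈ I) → ∀ s ∈ I, ∀ k : ℕ, 1 ≤ k → k ≤ m →
    ∑ S ∈ Finset.powersetCard k (Finset.univ : Finset (Fin m)),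
      alt w (fun i => if i ∈ S then s * x i else x i) * c * alt w' y = 0

/-- PE (commutative algebra, as PS but with the elementary symmetric functions; no division).
`L (monomial k c) = c • g k` kills all `q * esymm k`, `k ≥ 1`, and `X i₀ ^ m` is in the ideal of the
`esymm k`, `1 ≤ k ≤ m` (see `Pool/Agent/Run7/h890/LV/PS.lean`). -/
def S_PE : Prop := ∀ (A : Type u) [AddCommGroup A] (m : ℕ) (g : (Fin m → ℕ) → A),
  (∀ (e : Fin m → ℕ) (k : ℕ), 1 ≤ k → k ≤ m →
    ∑ S ∈ Finset.powersetCard k (Finset.univ : Finset (Fin m)),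
      g (fun i => if i ∈ S then e i + 1 else e i) = 0) →
  ∀ i₀ : Fin m, g (fun i => if i = i₀ then m else 0) = 0

/-- STC (char-free exchange with one variable). For the word `w⁺` over `Fin (m + 1)`:
`w` with `inr i ↦ inr i.succ`, then `inl c'`, `inr 0`. `Cap I (m + 1)` at `Fin.cons z x` is a sum
over `Perm (Fin (m + 1))`; decompose `σ = swap 0 p * (1 ⊕ e)` (`Equiv.Perm.decomposeFin`). The
terms with `p = 0` give `alt w x * c' * z`, those with `p = i.succ` give
`- alt w (update x i z) * c' * x i`. -/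
def S_STC : Prop := ∀ (U : Type u) [Ring U] (I : Ideal U) (m : ℕ), Cap I (m + 1) →
  ∀ w : List (U ⊕ Fin m), Once w → ∀ (c' : U) (x : Fin m → U), (∀ i, x i ∈ I) → ∀ z ∈ I,
    alt w x * c' * z = ∑ i, alt w (Function.update x i z) * c' * x i

/-- NIC (from DK, PE, STC). First `alt w (update x i (s ^ m * x i)) * c * alt w' y = 0`: PE with
`g e = alt w (fun i => s ^ (e i) * x i) * c * alt w' y`; its hypothesis is DK at
`fun i => s ^ (e i) * x i`. Then STC for `z := s ^ m * z` and `c' = c * alt w' y`: every term is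
zero by the first part at `update x i z`. -/
def S_NIC : Prop := ∀ (U : Type u) [Ring U] (I : Ideal U) [I.IsTwoSided] (m : ℕ),
  Cap I (m + 1) → Perfect I → ∀ w w' : List (U ⊕ Fin m), Once w → Once w' →
  ∀ x y : Fin m → U, (∀ i, x i ∈ I) → (∀ i, y i ∈ I) → ∀ c : U, ∀ s ∈ I, ∀ z ∈ I,
    alt w x * c * alt w' y * (s ^ m * z) = 0

/-- RED (from NIC). Induction on `n` for all `U, I` as in FIN (`Pool/Agent/Run7/h633/LV/FIN.lean`).
`n = 0`: `Cap I 0` gives `1 = 0`, `I = ⊥`. `n = m + 1`: `D` the two-sided ideal of the sums of the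
values `alt w x`. `A = {c | ∀ d d' ∈ D, ∀ z ∈ I, d * d' * c * z = 0}` is two-sided and contains
`s ^ m`. If `¬ I ≤ A` take `A`. Otherwise `¬ I ≤ D` (else `I = I ^ 4 = 0`), so the image of `I` in
`U ⧸ D` is not zero, perfect and satisfies `Cap _ m`; take the preimage of the ideal given by the
induction hypothesis; `s ^ (m - 1) ∈ A` implies `s ^ m ∈ A`. -/
def S_RED : Prop := ∀ (n : ℕ) (U : Type u) [Ring U] (I : Ideal U) [I.IsTwoSided],
  Cap I n → Perfect I → I ≠ ⊥ → ∃ A : Ideal U, A.IsTwoSided ∧ ¬ I ≤ A ∧ ∀ s ∈ I, s ^ (n - 1) ∈ A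

end Run7.h432.LV
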